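import Pool.Agent.H3RD.W830.RD.Stm

set_option autoImplicit false

namespace Pool.Agent.W61.RD.ROT

open Pool.Agent.W830.RD
open scoped Classical

theorem last_visit {ι : Type} (s : Finset ι) (r : ι → ι → Prop) (a b : ι) (hab : b ≠ a) (x : ι)
    (h : Relation.ReflTransGen (fun i j => i ∈ s ∧ j ∈ s ∧ r i j) x b) :
    (x ≠ a ∧ Relation.ReflTransGen
      (fun i j => i ∈ s.erase a ∧ j ∈ s.erase a ∧ r i j) x b) ∨
    ∃ c, c ∈ s.erase a ∧ r a c ∧ Relation.ReflTransGen
      (fun i j => i ∈ s.erase a ∧ j ∈ s.erase a ∧ r i j) c b := by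
  induction h using Relation.ReflTransGen.head_induction_on with
  | refl => exact Or.inl ⟨hab, Relation.ReflTransGen.refl⟩
  | head h1 h2 ih =>
    rename_i x y
    rcases ih with ⟨hy, hp⟩ | h
    · by_cases hx : x = a
      · right
        refine ⟨y, Finset.mem_erase.2 ⟨hy, h1.2.1⟩, ?_, hp⟩
        rw [← hx]; exact h1.2.2
      · left
        exact ⟨hx, Relation.ReflTransGen.head
          ⟨Finset.mem_erase.2 ⟨hx, h1.1⟩, Finset.mem_erase.2 ⟨hy, h1.2.1⟩, h1.2.2⟩ hp⟩
    · exact Or.inr h

theorem main : S_ROT := by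
  intro ι s
  induction s using Finset.strongInduction with
  | _ s ih =>
    intro r a b ha hb hr hp
    by_cases hab : b = a
    · subst hab
      exact ⟨id, fun i hi hib => ⟨hi, hr i hi, hib⟩, fun i _ j _ _ _ h => h⟩
    · rcases last_visit s r a b hab a hp with h | ⟨c, hc, hac, hcb⟩
      · exact absurd rfl h.1
      · obtain ⟨σ, h1, h2⟩ := ih (s.erase a) (Finset.erase_ssubset ha) r c b hc
          (Finset.mem_erase.2 ⟨hab, hb⟩) (fun i hi => hr i (Finset.mem_of_mem_erase hi)) hcb
        refine ⟨fun i => if i = a then c else σ i, ?_, ?_⟩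
        · intro i hi hib
          by_cases hia : i = a
          · simp only [hia, if_true]
            exact ⟨Finset.mem_of_mem_erase hc, hac, Finset.ne_of_mem_erase hc⟩
          · simp only [hia, if_false]
            have h3 := h1 i (Finset.mem_erase.2 ⟨hia, hi⟩) hib
            exact ⟨Finset.mem_of_mem_erase h3.1, h3.2.1, Finset.ne_of_mem_erase h3.1⟩
        · intro i hi j hj hib hjb hij
          by_cases hia : i = a
          · by_cases hja : j = a
            · rw [hia, hja]
            · simp only [hia, hja, if_true, if_false] at hij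
              exact absurd hij.symm (h1 j (Finset.mem_erase.2 ⟨hja, hj⟩) hjb).2.2
          · by_cases hja : j = a
            · simp only [hia, hja, if_true, if_false] at hij
              exact absurd hij (h1 i (Finset.mem_erase.2 ⟨hia, hi⟩) hib).2.2
            · simp only [hia, hja, if_false] at hij
              exact h2 i (Finset.mem_erase.2 ⟨hia, hi⟩) j (Finset.mem_erase.2 ⟨hja, hj⟩) hib hjb hij

end Pool.Agent.W61.RD.ROT
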